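import Mathlib
import Pool.Agent.N978.HP.Stm

/-!
HP-DV: a set of primes of positive lower density has a divergent sum of reciprocals.
-/

set_option autoImplicit false

namespace Pool.Agent.N279.HP

open Filter Topology Finset Pool.Agent.N978.HP

open scoped Classical in
/-- the characteristic function -/
noncomputable def ch (R : Set ℕ) (n : ℕ) : ℝ := if n ∈ R then 1 else 0

/-- the counting function -/
noncomputable def Sf (R : Set ℕ) (n : ℕ) : ℝ := ∑ k ∈ range (n + 1), ch R k

/-- the sum of the reciprocals -/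
noncomputable def Tf (R : Set ℕ) (n : ℕ) : ℝ := ∑ k ∈ range (n + 1), ch R k / k

/-- the sum after partial summation -/
noncomputable def Wf (R : Set ℕ) (n : ℕ) : ℝ := ∑ m ∈ range n, Sf R m * (1 / m - 1 / (m + 1))

theorem ch_nonneg (R : Set ℕ) (n : ℕ) : 0 ≤ ch R n := by
  unfold ch; split_ifs <;> norm_num

theorem ch_le (R : Set ℕ) (n : ℕ) : ch R n ≤ 1 := by
  unfold ch; split_ifs <;> norm_num

theorem Sf_nonneg (R : Set ℕ) (n : ℕ) : 0 ≤ Sf R n := Finset.sum_nonneg fun k _ => ch_nonneg R k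

theorem Sf_le (R : Set ℕ) (n : ℕ) : Sf R n ≤ n + 1 := by
  have := Finset.sum_le_sum (s := range (n + 1)) fun k _ => ch_le R k
  unfold Sf
  simpa using this

theorem abel (R : Set ℕ) (n : ℕ) : Tf R n = Wf R n + Sf R n / n := by
  induction n with
  | zero => simp [Tf, Wf]
  | succ n ih =>
    have h1 : Tf R (n + 1) = Tf R n + ch R (n + 1) / ((n + 1 : ℕ) : ℝ) := by
      unfold Tf; rw [Finset.sum_range_succ]
    have h2 : Wf R (n + 1) = Wf R n + Sf R n * (1 / n - 1 / (n + 1)) := by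
      unfold Wf; rw [Finset.sum_range_succ]
    have h3 : Sf R (n + 1) = Sf R n + ch R (n + 1) := by
      unfold Sf; rw [Finset.sum_range_succ]
    rw [h1, h2, h3, ih]
    push_cast
    ring

theorem coeff_nonneg (m : ℕ) (hm : 1 ≤ m) : (0 : ℝ) ≤ 1 / m - 1 / (m + 1) := by
  have h1 : (0 : ℝ) < m := by exact_mod_cast hm
  have h2 : 1 / ((m : ℝ) + 1) ≤ 1 / m := one_div_le_one_div_of_le h1 (by linarith)
  linarith

theorem Sf_eq (R : Set ℕ) (n : ℕ) : Sf R n = (Nat.card {p : ℕ // p ≤ n ∧ p ∈ R} : ℝ) := by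
  classical
  unfold Sf ch
  rw [Finset.sum_ite, Finset.sum_const_zero, add_zero, Finset.sum_const, nsmul_eq_mul, mul_one]
  congr 1
  have h1 : ∀ p : ℕ, (p ≤ n ∧ p ∈ R) ↔ p ∈ (range (n + 1)).filter fun x => x ∈ R := by
    intro p
    rw [Finset.mem_filter, Finset.mem_range, Nat.lt_succ_iff]
  rw [Nat.card_congr (Equiv.subtypeEquivRight h1), Nat.card_eq_fintype_card, Fintype.card_coe]

theorem Sf_prime (n : ℕ) : Sf {p | p.Prime} n = (Nat.primeCounting n : ℝ) := by
  rw [Sf_eq]
  congr 1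
  rw [Nat.primeCounting, Nat.primeCounting', Nat.count_eq_card_filter_range]
  have h1 : ∀ p : ℕ, (p ≤ n ∧ p ∈ {p : ℕ | p.Prime}) ↔
      p ∈ (range (n + 1)).filter fun x => x.Prime := by
    intro p
    rw [Finset.mem_filter, Finset.mem_range, Nat.lt_succ_iff]
    exact Iff.rfl
  rw [Nat.card_congr (Equiv.subtypeEquivRight h1), Nat.card_eq_fintype_card, Fintype.card_coe]

theorem t_DV : S_DV := by
  intro R δ hR hδ hev hsum
  rw [eventually_atTop] at hev
  obtain ⟨m0, hm0⟩ := hev
  -- the sum over `R` is bounded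
  have hs1 : Summable (Set.indicator R fun n : ℕ => (1 : ℝ) / (n : ℝ)) :=
    summable_subtype_iff_indicator.1 hsum
  obtain ⟨C, hC⟩ : ∃ C : ℝ, ∀ n, Tf R n ≤ C := by
    refine ⟨∑' n, Set.indicator R (fun n : ℕ => (1 : ℝ) / (n : ℝ)) n, fun n => ?_⟩
    have h1 : Tf R n = ∑ k ∈ range (n + 1), Set.indicator R (fun n : ℕ => (1 : ℝ) / (n : ℝ)) k := by
      unfold Tf ch
      refine Finset.sum_congr rfl fun k _ => ?_
      by_cases hk : k ∈ R
      · rw [if_pos hk, Set.indicator_of_mem hk]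
      · rw [if_neg hk, Set.indicator_of_notMem hk, zero_div]
    rw [h1]
    exact hs1.sum_le_tsum _ fun k _ => Set.indicator_nonneg (fun x _ => by positivity) k
  have hWR : ∀ n, Wf R n ≤ C := by
    intro n
    have h1 := abel R n
    have h2 : 0 ≤ Sf R n / n := div_nonneg (Sf_nonneg R n) (Nat.cast_nonneg n)
    have h3 := hC n
    linarith
  have hR0 : Sf R 0 = 0 := by
    unfold Sf
    rw [Finset.sum_range_one]
    unfold ch
    rw [if_neg]
    intro h
    exact Nat.not_prime_zero (hR 0 h)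
  have hP0 : Sf {p | p.Prime} 0 = 0 := by
    unfold Sf
    rw [Finset.sum_range_one]
    unfold ch
    rw [if_neg]
    intro h
    exact Nat.not_prime_zero h
  -- comparison
  obtain ⟨B, hB⟩ : ∃ B : ℝ, B = ∑ m ∈ range m0, |Sf {p | p.Prime} m * (1 / m - 1 / (m + 1))| :=
    ⟨_, rfl⟩
  have hB0 : 0 ≤ B := by rw [hB]; exact Finset.sum_nonneg fun _ _ => abs_nonneg _
  have hterm : ∀ m : ℕ, Sf {p | p.Prime} m * (1 / m - 1 / (m + 1)) ≤
      (if m < m0 then |Sf {p | p.Prime} m * (1 / m - 1 / (m + 1))| else 0) +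
        δ⁻¹ * (Sf R m * (1 / m - 1 / (m + 1))) := by
    intro m
    rcases Nat.eq_zero_or_pos m with h0 | h0
    · subst h0
      rw [hR0, hP0]
      split_ifs <;> simp
    have hc := coeff_nonneg m h0
    have hR1 : 0 ≤ δ⁻¹ * (Sf R m * (1 / m - 1 / (m + 1))) :=
      mul_nonneg (inv_nonneg.2 hδ.le) (mul_nonneg (Sf_nonneg R m) hc)
    split_ifs with hm
    · have := le_abs_self (Sf {p | p.Prime} m * (1 / m - 1 / (m + 1)))
      linarith
    · rw [zero_add]
      have h1 := hm0 m (not_lt.1 hm)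
      rw [← Sf_prime, ← Sf_eq] at h1
      have h2 : Sf {p | p.Prime} m ≤ δ⁻¹ * Sf R m := by
        rw [inv_mul_eq_div, le_div_iff₀ hδ]
        linarith
      calc Sf {p | p.Prime} m * (1 / m - 1 / (m + 1))
          ≤ δ⁻¹ * Sf R m * (1 / m - 1 / (m + 1)) := mul_le_mul_of_nonneg_right h2 hc
        _ = _ := by ring
  have hWP : ∀ n, Wf {p | p.Prime} n ≤ B + δ⁻¹ * C := by
    intro n
    have h1 : Wf {p | p.Prime} n ≤ ∑ m ∈ range n,
        ((if m < m0 then |Sf {p | p.Prime} m * (1 / m - 1 / (m + 1))| else 0) +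
        δ⁻¹ * (Sf R m * (1 / m - 1 / (m + 1)))) := Finset.sum_le_sum fun m _ => hterm m
    rw [Finset.sum_add_distrib, ← Finset.mul_sum] at h1
    have h2 : ∑ m ∈ range n,
        (if m < m0 then |Sf {p | p.Prime} m * (1 / m - 1 / (m + 1))| else 0) ≤ B := by
      rw [← Finset.sum_filter, hB]
      apply Finset.sum_le_sum_of_subset_of_nonneg
      · intro m hm
        rw [Finset.mem_filter] at hm
        exact Finset.mem_range.2 hm.2
      · intro _ _ _
        exact abs_nonneg _
    have h3 : δ⁻¹ * ∑ m ∈ range n, Sf R m * (1 / m - 1 / (m + 1)) ≤ δ⁻¹ * C :=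
      mul_le_mul_of_nonneg_left (hWR n) (inv_nonneg.2 hδ.le)
    linarith
  have hTP : ∀ n, Tf {p | p.Prime} n ≤ B + δ⁻¹ * C + 2 := by
    intro n
    rw [abel]
    have h1 : Sf {p | p.Prime} n / n ≤ 2 := by
      rcases Nat.eq_zero_or_pos n with h0 | h0
      · subst h0; simp
      · have h2 : (1 : ℝ) ≤ n := by exact_mod_cast h0
        rw [div_le_iff₀ (by linarith)]
        have := Sf_le {p | p.Prime} n
        linarith
    have := hWP n
    linarith
  apply not_summable_one_div_on_primes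
  apply summable_of_sum_range_le (c := B + δ⁻¹ * C + 2)
  · intro n
    exact Set.indicator_nonneg (fun x _ => by positivity) n
  · intro n
    refine le_trans ?_ (hTP n)
    have h1 : Tf {p | p.Prime} n =
        ∑ k ∈ range (n + 1), Set.indicator {p | p.Prime} (fun n : ℕ => (1 : ℝ) / (n : ℝ)) k := by
      unfold Tf ch
      refine Finset.sum_congr rfl fun k _ => ?_
      by_cases hk : k ∈ {p : ℕ | p.Prime}
      · rw [if_pos hk, Set.indicator_of_mem hk]
      · rw [if_neg hk, Set.indicator_of_notMem hk, zero_div]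
    rw [h1, Finset.sum_range_succ]
    have h2 : 0 ≤ Set.indicator {p : ℕ | p.Prime} (fun n : ℕ => (1 : ℝ) / (n : ℝ)) n :=
      Set.indicator_nonneg (fun x _ => by positivity) n
    linarith

end Pool.Agent.N279.HP
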